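import Pool.Agent.helper81.PL.SpecA

/-!
# Stage 1 of the polynomial time library, module MAC: from programs to machines
-/

set_option autoImplicit false
set_option linter.dupNamespace false
set_option linter.unusedVariables false

namespace Pool.Agent.helper81.PL

open Pool.Agent.helper62 Prog Function Turing

/-- compilation with an arbitrary time function -/
theorem MAC_compile {I : Type} [DecidableEq I] [Fintype I] (p : Prog I) (i o : I) {A : Type}
    (e : A → List Bool) (f : A → Bool) (t : A → ℕ)
    (h : ∀ a, ∃ n, n + 1 ≤ t a ∧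
      Exec p (update (fun _ => []) i (e a)) (update (fun _ => []) o [f a]) n) :
    MachineTime e f t := by
  refine ⟨{ tm := machine p i o
            inputAlphabet := Equiv.refl Bool
            outputAlphabet := Equiv.refl Bool }, fun a => ?_⟩
  obtain ⟨n, hn, hex⟩ := h a
  obtain ⟨v', hv⟩ := code_correct (machine p i o).m hex (fun l => some l) none
    (fun l => rfl) none
  have hinit : initList (machine p i o) (List.map (Equiv.refl Bool).invFun (e a)) =
      ⟨some (some (entry p)), none, update (fun _ => []) i (e a)⟩ := by
    have e1 : (initList (machine p i o) (List.map (Equiv.refl Bool).invFun (e a))).stk =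
        (update (fun _ => []) i (e a) : I → List Bool) := by
      refine (initList_stk (machine p i o) _).trans ?_
      exact congrArg (fun l : List Bool => (update (fun _ => []) i l : I → List Bool))
        (List.map_id (e a))
    exact congrArg (fun s : I → List Bool => (⟨some (some (entry p)), none, s⟩ :
      TM2.Cfg (fun _ : I => Bool) (Option (Lab p)) (Option Bool))) e1
  have hhalt : haltList (machine p i o) (List.map (Equiv.refl Bool).invFun [f a]) =
      ⟨none, none, update (fun _ => []) o [f a]⟩ := by
    have e1 : (haltList (machine p i o) (List.map (Equiv.refl Bool).invFun [f a])).stk =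
        (update (fun _ => []) o [f a] : I → List Bool) := by
      refine (haltList_stk (machine p i o) _).trans ?_
      exact congrArg (fun l : List Bool => (update (fun _ => []) o l : I → List Bool))
        (List.map_id [f a])
    exact congrArg (fun s : I → List Bool => (⟨none, none, s⟩ :
      TM2.Cfg (fun _ : I => Bool) (Option (Lab p)) (Option Bool))) e1
  refine ⟨⟨⟨n + 1, ?_⟩, hn⟩⟩
  rw [hinit]
  simp only [Option.map_some, hhalt]
  exact iterate_trans hv rfl

theorem MAC (hI : INP_stmt) (hO : OUT_stmt) : MAC_stmt := by
  obtain ⟨pin, c1, hin⟩ := hI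
  obtain ⟨pout, c2, hout⟩ := hO
  refine ⟨c1 + c2 + 1, ?_⟩
  intro A e f t hf
  obtain ⟨q, hq⟩ := hf 0
  let P : Prog ℕ := .seq pin (.seq q pout)
  have hP : ∀ w : List Bool, Runs P (update (fun _ => []) 0 w) (update (fun _ => []) 0 [f w])
      (c1 * (w.length + 1) + (t w + c2)) := by
    intro w
    refine (hin w).seq (Runs.seq ?_ (hout (f w)))
    have h1 := hq w (update (fun _ => []) 0 (cd w)) (by simp) (fun i hi => by
      rw [update_of_ne (by omega)])
    rw [update_idem] at h1
    exact h1
  obtain ⟨m, hm0⟩ := Pool.Agent.H54.PT.exists_supp P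
  have hm : Pool.Agent.H54.PT.Supp (m + 1) P := hm0.mono (by omega)
  refine MAC_compile (Pool.Agent.H54.PT.toFin m P) (Fin.ofNat (m + 1) 0) (Fin.ofNat (m + 1) 0) e
    (fun a => f (e a)) _ (fun a => ?_)
  obtain ⟨n, hn, he⟩ := hP (e a)
  have h1 := Pool.Agent.H54.PT.exec_toFin he hm
  rw [Pool.Agent.H54.PT.update_val (by omega), Pool.Agent.H54.PT.update_val (by omega)] at h1
  refine ⟨n, ?_, h1⟩
  have e1 : (c1 + c2 + 1) * ((e a).length + 1) =
      c1 * ((e a).length + 1) + c2 * ((e a).length + 1) + ((e a).length + 1) := by ring
  have e2 : c2 ≤ c2 * ((e a).length + 1) := Nat.le_mul_of_pos_right c2 (Nat.succ_pos _)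
  show n + 1 ≤ t (e a) + (c1 + c2 + 1) * ((e a).length + 1)
  rw [e1]
  omega

end Pool.Agent.helper81.PL
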